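import Pool.Agent.Helper66_PFD.AsmPmz
import Pool.Agent.Helper47_PST.NBK
import Pool.Agent.PST.StmtsET3

/-!
# Squad PST, row CO2: the core of part (0) with more output (helper55)

`core2` is the theorem `Pool.Agent.PFC.B5c.H43.core` (`Helper43_PFC/AsmB5.lean`) with more output.
-/

open scoped BigOperators TensorProduct

noncomputable section

namespace Pool.Agent.PST.H55

open Pool.Agent.PFC Pool.Agent.PFC.B5c Pool.Agent.PFC.B5c.H43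
open Pool.Agent.PST.ET (Co2Stmt)

/-- the rows of part (0) are proved -/
theorem rowsT : Rows :=
  rows B5a.H70.qfc H67.qtm H62.qmx (H3.qlr (H63.qlp H85Q.qis) H85Q.qis H72.qre H6.qrt)
    (H34.qsp H18.qke)

/-- The core of part (0) with more output: the degree of `N` is prime to `ℓ`, and `N(V) = F`. -/
theorem core2 (H : Rows) (F V E A : Type) [Field F] [IsAlgClosed F] [CommGroup V] [Fintype V]
    [Group E] [Fintype E] [Ring A] [Algebra F A] [FiniteDimensional F A] (ℓ : ℕ) [CharP F ℓ]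
    (φ : E →* MulAut V) (W : Subgroup V) (α : V →* A) (hC : Ctf ℓ φ W) (hI : PIn F φ W α) :
    ∃ (N Y' : IA F V) (j : (N.tens (bd F α)).A) (κ : Y'.A →ₗ[F] (N.tens (bd F α)).A) (n : ℕ),
      0 < n ∧ (n : F) ≠ 0 ∧ Nonempty (N.A ≃ₐ[F] Matrix (Fin n) (Fin n) F) ∧
      BQ N (IA.one F V) ⊤ ∧
      Cor (N.tens (bd F α)) Y' j κ ∧ j ∈ Fx (cj F (N.tens (bd F α)).ι) ⊤ ∧ j * j = j ∧
      1 - j ∈ BK (cj F (N.tens (bd F α)).ι) ⊤ ∧
      (∃ lam, Frm F (N.tens (bd F α)).ι lam) ∧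
      PS (fun K => ∃ (e : E) (R : Subgroup V), K = tw (φ e).toMonoidHom R)
        (bi F (N.tens (bd F α)).ι) ∧
      BQ (N.tens (bd F α)) (IA.gr F V) ⊤ ∧
      (∀ e : E, ∃ y y' : (N.tens (bd F α)).A, y * y' = 1 ∧ y' * y = 1 ∧
        ∀ u, y * (N.tens (bd F α)).ι u = (N.tens (bd F α)).ι (φ e u) * y) ∧
      PMid F φ W Y'.ι := by
  classical
  have : Fact ℓ.Prime := ⟨hC.pr⟩
  have htop : ¬ (⊤ : Subgroup V) ≤ W := by
    obtain ⟨u, hu⟩ := hC.nt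
    exact fun h => hu (h (Subgroup.mem_top u))
  have hWs : ∀ e : E, W.map (φ e).toMonoidHom = W := by
    intro e
    apply le_antisymm
    · rintro _ ⟨u, hu, rfl⟩
      exact hC.stab e u hu
    · intro u hu
      refine ⟨φ e⁻¹ u, hC.stab e⁻¹ u hu, ?_⟩
      show φ e (φ e⁻¹ u) = u
      rw [← MulAut.mul_apply, ← map_mul, mul_inv_cancel, map_one, MulAut.one_apply]
  set X : IA F V := bd F α with hX
  have hCP : CP X := H.cpx F V A α _ hI.ps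
  have hbt : BQ X (IA.gr F V) ⊤ := H.tpb ℓ F V X hC.pg hCP hI.top
  obtain ⟨S, hS⟩ := H.fam F V E A ℓ φ W α hC hI
  obtain ⟨hcm, hst⟩ := H.cmr ℓ F V E X φ W S hC.pg htop hCP hbt hS
  obtain ⟨N, hNm, hNc, hNr, hNt, hNR⟩ := H.qgw ℓ F V W (Set.range φ) S hC.pg htop
    (by rintro _ ⟨e, rfl⟩; exact hWs e) (fun Q hQ => ⟨hS.mx Q hQ, hS.cp Q hQ⟩) hcm hst
    (by rintro _ ⟨e, rfl⟩ Q hQ; exact hS.tw Q hQ e)
  obtain ⟨iRefl, iSymm, iTrans, iBQ, -, -, -, iTen, -, iComm, iAssoc, iOne, -⟩ := H.qis F V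
  set Y : IA F V := N.tens X with hY
  have hCY : CP Y := (H.qcp F V).1 N X hNc hCP
  -- Y(V) = F V
  have hYt : BQ Y (IA.gr F V) ⊤ := by
    obtain ⟨β, s, h1⟩ := hNt
    obtain ⟨β', s', h2⟩ := hbt
    exact iBQ Y Y _ _ ⊤ (iRefl Y) (iOne (IA.gr F V)) ⟨_, _, H.qte ℓ F V _ _ _ _ ⊤ β s β' s' hC.pg h1 h2⟩
  obtain ⟨b, hb⟩ := (H.qcx ℓ F V Y hC.pg hYt).1
  obtain ⟨j, hj⟩ := H.qlx F V Y b hb
  have hjc : ∀ v, Y.ι v * j = j * Y.ι v := by
    intro v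
    have h := hj.fx v (Subgroup.mem_top v)
    have h2 : Y.ι v * (j * Y.ι v⁻¹) = j := h
    calc Y.ι v * j = Y.ι v * (j * Y.ι v⁻¹) * Y.ι v := by
          rw [mul_assoc, mul_assoc, ← map_mul, inv_mul_cancel, map_one, mul_one]
      _ = j * Y.ι v := by rw [h2]
  obtain ⟨Y', κ, hκ⟩ := H.qce F V Y j hj.id hjc
  -- the Brauer quotients of the corner
  have hR : ∀ R : Subgroup V, ¬ R ≤ W → BQ Y' (IA.gr F V) R := by
    intro R hRW
    obtain ⟨N', hN1, hN2, hN3⟩ := hNR R hRW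
    apply H.qzs ℓ F V Y Y' (N'.tens (S R)) R b j κ hC.pg hCY hb hj hκ _ hN2 hN3
    obtain ⟨β, s, h1⟩ := hN1
    obtain ⟨β', s', h2⟩ := hS.bq R hRW
    exact iBQ Y Y _ _ R (iRefl Y) (iSymm _ _ (iAssoc N' (S R) (IA.gr F V)))
      ⟨_, _, H.qte ℓ F V _ _ _ _ R β s β' s' hC.pg h1 h2⟩
  -- j modulo the Brauer kernel
  have hjb : j ∉ BK (cj F Y.ι) ⊤ := by
    obtain ⟨β, s, h1⟩ := hYt
    obtain ⟨c, hc1, -, hc3⟩ := H.qlb ℓ F V Y (IA.gr F V) ⊤ b j β s hC.pg hCY hb hj h1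
    intro hbk
    have h0 := ((H.qke ℓ F V _ _ _ _ ⊤ β s hC.pg h1.toBrS).2.1 j hj.fx).2 hbk
    have h1 := hc3.bj
    rw [h0, map_zero] at h1
    exact zero_ne_one h1
  have hj1 : 1 - j ∈ BK (cj F Y.ι) ⊤ := H.jbk ℓ F V Y j hC.pg hYt hj.fx hj.id hjb
  obtain ⟨n, hn0, hnF, hNe⟩ := H.ndm ℓ F V N hC.pg hNm hNc hNt
  obtain ⟨lam, hlam⟩ := hI.frm
  obtain ⟨lam1, hlam1⟩ := H.frt ℓ F V N X n hC.pg hnF hNe lam hlam
  have hps : PS (fun K => ∃ (e : E) (R : Subgroup V), K = tw (φ e).toMonoidHom R) (bi F Y.ι) :=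
    H.qvp F V E φ N X hNc (fun e => hNr _ ⟨e, rfl⟩) hI.ps
  have hrz : ∀ e, Rz Y (φ e) := by
    intro e
    apply (H.qsn F V).2.2.2 N X (φ e) (hNr _ ⟨e, rfl⟩)
    obtain ⟨y, y', h1, h2, h3⟩ := hI.uni e
    exact ⟨⟨y, y', h1, h2⟩, h3⟩
  have hpm : PMid F φ W Y'.ι := by
    refine ⟨Y'.fi, ?_, ?_, ?_, ?_, ?_, ?_⟩
    · exact H.frc ℓ F V Y Y' j κ hC.pg hκ hj1 lam1 hlam1
    · exact (H.qll F V Y Y' b j κ hb hj hκ).2
    · intro h1
      have h2 := (H.qsp ℓ F V Y' ⊤ hC.pg (hR ⊤ htop)).2 (fun u => if u = 1 then 1 else 0) (by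
        have : ∑ u, (if u = 1 then (1 : F) else 0) • Y'.ι u = 1 := by
          rw [Finset.sum_eq_single (1 : V)]
          · simp
          · intro u _ hu
            simp [hu]
          · intro h
            exact absurd (Finset.mem_univ _) h
        rw [this]
        exact h1)
      have h3 := congrFun h2 1
      simp at h3
    · exact (H.qcp F V).2.2.2.2.1 _ Y Y' j κ hκ hps
    · intro R hRW a ha
      exact (H.qsp ℓ F V Y' R hC.pg (hR R hRW)).1 a ha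
    · intro e
      obtain ⟨y, hy⟩ := H.qtj ℓ F V Y Y' b j κ (φ e) hC.pg hYt hb hj hκ (hrz e)
      exact ⟨y, (y⁻¹ : Y'.Aˣ), y.mul_inv, y.inv_mul, hy⟩
  refine ⟨N, Y', j, κ, n, hn0, hnF, hNe, hNt, hκ, hj.fx, hj.id, hj1, ⟨lam1, hlam1⟩, hps, hYt, ?_, hpm⟩
  intro e
  obtain ⟨y, hy⟩ := hrz e
  exact ⟨y, (y⁻¹ : Y.Aˣ), y.mul_inv, y.inv_mul, hy⟩

theorem co2 : Co2Stmt := by
  intro ℓ _ F V E A _ _ _ _ _ _ _ _ _ _ φ α hC hI
  have hzmx : ZmxStmt := H52.zmx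
  have hlcn : LcnStmt := H65.lcn
  have hful : FulStmt := H31.ful H15.brk
  obtain ⟨N, Y', j, κ, n, hn0, hnF, hNe, hNt, hκ, hjf, hjj, hj1, ⟨lam, hlam⟩, hps, hYt, hun, hpm⟩ :=
    core2 rowsT F V E A ℓ φ ⊥ α hC hI
  refine ⟨N, Y', j, κ, n, hn0, hnF, hNe, Pool.Agent.PST.ET.H47.nbk ℓ F V N hC.pg hNt, hκ, hjj, hj1,
    hpm, ?_⟩
  have hzm := hzmx F N.A A n hn0 hNe
  have hce : ∀ z : (N.tens (bd F α)).A, (∀ a, z * a = a * z) → IsUnit z ∨ IsNilpotent z := by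
    intro z hz
    obtain ⟨c, hc, rfl⟩ := hzm.1 z hz
    have hcz : c ∈ Cz F α ⊤ := by
      rw [Cz, Subalgebra.mem_centralizer_iff]
      intro g _
      exact (hc g).symm
    rcases (hlcn F (Cz F α ⊤) hI.loc).1 ⟨c, hcz⟩ with h | h
    · left
      have h2 : IsUnit c := by
        have := h.map (Cz F α ⊤).val
        exact this
      have := h2.map (Algebra.TensorProduct.includeRight : A →ₐ[F] N.A ⊗[F] A)
      exact this
    · right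
      have h2 : IsNilpotent c := by
        obtain ⟨k, hk⟩ := h
        exact ⟨k, by simpa using congrArg Subtype.val hk⟩
      exact h2.map (Algebra.TensorProduct.includeRight : A →ₐ[F] N.A ⊗[F] A)
  exact hful ℓ F V E (N.tens (bd F α)).A φ ⊥ (N.tens (bd F α)).ι lam j hC hlam hps hYt hun hce hjf
    hjj hj1

end Pool.Agent.PST.H55
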