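import Pool.Agent.PST.StmtsET2

/-!
# Squad PST, row REL_ET: the relative form is right `S`-linear (helper55)
-/

open scoped BigOperators

noncomputable section

namespace Pool.Agent.PST.H55

open Pool.Agent.PST.ET (RelStmt)

theorem rel : RelStmt := by
  intro R V S D _ _ _ _ _ _ i σ σ' t T hT h1 h2 a s
  have hA : ∀ v, T (i (σ' v) * (a * i s)) = ∑ w, t (σ w * (s * σ' v)) * T (i (σ' w) * a) := by
    intro v
    have e1 : T (i (σ' v) * (a * i s)) = T (i (s * σ' v) * a) := by
      rw [← mul_assoc, hT, ← mul_assoc, ← map_mul i]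
    have e2 : i (s * σ' v) = ∑ w, t (σ w * (s * σ' v)) • i (σ' w) := by
      conv_lhs => rw [← h2 (s * σ' v)]
      rw [map_sum]
      exact Finset.sum_congr rfl fun w _ => map_smul i _ _
    rw [e1, e2, Finset.sum_mul, map_sum]
    refine Finset.sum_congr rfl fun w _ => ?_
    rw [smul_mul_assoc, map_smul, smul_eq_mul]
  calc ∑ v, T (i (σ' v) * (a * i s)) • i (σ v)
      = ∑ v, ∑ w, T (i (σ' w) * a) • t (σ' v * (σ w * s)) • i (σ v) := by
        refine Finset.sum_congr rfl fun v _ => ?_
        rw [hA v, Finset.sum_smul]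
        refine Finset.sum_congr rfl fun w _ => ?_
        rw [smul_smul, mul_comm (T _)]
        congr 3
        rw [← mul_assoc, mul_comm]
    _ = ∑ w, ∑ v, T (i (σ' w) * a) • t (σ' v * (σ w * s)) • i (σ v) := Finset.sum_comm
    _ = ∑ w, T (i (σ' w) * a) • i (σ w * s) := by
        refine Finset.sum_congr rfl fun w _ => ?_
        rw [← Finset.smul_sum]
        congr 1
        conv_rhs => rw [← h1 (σ w * s)]
        rw [map_sum]
        exact Finset.sum_congr rfl fun v _ => (map_smul i _ _).symm
    _ = (∑ v, T (i (σ' v) * a) • i (σ v)) * i s := by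
        rw [Finset.sum_mul]
        refine Finset.sum_congr rfl fun w _ => ?_
        rw [smul_mul_assoc, map_mul i]

end Pool.Agent.PST.H55
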